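import Pool.Agent.Helper53.PT.GoalsB

/-!
# MP_705522_gt, packet PT-KCC: lower bound of the full product through convexity of `lam`
-/

namespace Pool.Agent.Helper87.PT

open Pool.Agent.Helper53.PT Set

theorem gKCC : GKCC := by
  intro hRL θ z m xW xD yN hF n t X X1 ht hX hXX1
  obtain ⟨-, hpos, -, -, -, -, -, -, -, -, -, hconv, hmono, -, hlam0⟩ := hRL θ z m xW xD yN hF
  have hX1 : 0 ≤ X1 := hX.trans hXX1
  have h1 : ∀ b1 a2 l1 l2 C : ℝ, 0 ≤ b1 → b1 < a2 → (∀ l, b1 ≤ t l ∧ t l ≤ a2) → a2 * X1 < z →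
      lam θ (b1 * X1) ≤ l1 → lam θ (a2 * X1) ≤ l2 →
      (n * a2 - 1) * l1 + (1 - n * b1) * l2 ≤ (a2 - b1) * C →
      Real.exp (-X / 2 - C) ≤ ∏ l, f0 θ (t l * X) := by
    intro b1 a2 l1 l2 C hb hba hl ha2 hl1 hl2 hC
    have hd : 0 < a2 - b1 := by linarith
    have htX : ∀ l, t l * X ∈ Ico 0 z := fun l =>
      ⟨mul_nonneg (ht.1 l) hX, lt_of_le_of_lt (mul_le_mul (hl l).2 hXX1 hX (hb.trans hba.le)) ha2⟩
    have htX1 : ∀ l, t l * X1 ∈ Ico 0 z := fun l =>
      ⟨mul_nonneg (ht.1 l) hX1, lt_of_le_of_lt (mul_le_mul_of_nonneg_right (hl l).2 hX1) ha2⟩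
    have hbX : b1 * X1 ∈ Ico 0 z :=
      ⟨mul_nonneg hb hX1, lt_of_le_of_lt (mul_le_mul_of_nonneg_right hba.le hX1) ha2⟩
    have haX : a2 * X1 ∈ Ico 0 z := ⟨mul_nonneg (hb.trans hba.le) hX1, ha2⟩
    have h2 : ∀ l, (a2 - b1) * lam θ (t l * X) ≤ (a2 - t l) * l1 + (t l - b1) * l2 := by
      intro l
      have h3 : lam θ (t l * X) ≤ lam θ (t l * X1) :=
        hmono (htX l) (htX1 l) (mul_le_mul_of_nonneg_left hXX1 (ht.1 l))
      have hn1 : 0 ≤ (a2 - t l) / (a2 - b1) := div_nonneg (by linarith [(hl l).2]) hd.le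
      have hn2 : 0 ≤ (t l - b1) / (a2 - b1) := div_nonneg (by linarith [(hl l).1]) hd.le
      have h4 := hconv.2 hbX haX hn1 hn2 (by field_simp; ring)
      rw [smul_eq_mul, smul_eq_mul, smul_eq_mul, smul_eq_mul,
        show (a2 - t l) / (a2 - b1) * (b1 * X1) + (t l - b1) / (a2 - b1) * (a2 * X1) =
          t l * X1 by field_simp; ring] at h4
      have h5 : (a2 - b1) * lam θ (t l * X1) ≤
          (a2 - t l) * lam θ (b1 * X1) + (t l - b1) * lam θ (a2 * X1) := by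
        calc (a2 - b1) * lam θ (t l * X1) ≤ (a2 - b1) * ((a2 - t l) / (a2 - b1) *
              lam θ (b1 * X1) + (t l - b1) / (a2 - b1) * lam θ (a2 * X1)) :=
              mul_le_mul_of_nonneg_left h4 hd.le
          _ = _ := by field_simp
      have h6 : (a2 - t l) * lam θ (b1 * X1) ≤ (a2 - t l) * l1 :=
        mul_le_mul_of_nonneg_left hl1 (by linarith [(hl l).2])
      have h7 : (t l - b1) * lam θ (a2 * X1) ≤ (t l - b1) * l2 :=
        mul_le_mul_of_nonneg_left hl2 (by linarith [(hl l).1])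
      have h8 := mul_le_mul_of_nonneg_left h3 hd.le
      linarith
    have h3 : ∑ l, lam θ (t l * X) ≤ C := by
      have h4 : (a2 - b1) * ∑ l, lam θ (t l * X) ≤ (a2 - b1) * C := by
        rw [Finset.mul_sum]
        calc ∑ l, (a2 - b1) * lam θ (t l * X) ≤ ∑ l, ((a2 - t l) * l1 + (t l - b1) * l2) :=
              Finset.sum_le_sum fun l _ => h2 l
          _ = (n * a2 - 1) * l1 + (1 - n * b1) * l2 := by
            rw [Finset.sum_add_distrib, ← Finset.sum_mul, ← Finset.sum_mul,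
              Finset.sum_sub_distrib, Finset.sum_sub_distrib, ht.2, Finset.sum_const,
              Finset.sum_const, Finset.card_univ, Fintype.card_fin, nsmul_eq_mul, nsmul_eq_mul]
          _ ≤ _ := hC
      exact le_of_mul_le_mul_left h4 hd
    have h4 : ∀ l, f0 θ (t l * X) = Real.exp (-(t l * X) / 2 - lam θ (t l * X)) := by
      intro l
      have h5 : -(t l * X) / 2 - lam θ (t l * X) = Real.log (f0 θ (t l * X)) := by
        unfold lam; ring
      rw [h5, Real.exp_log (hpos _ (htX l).1 (htX l).2)]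
    rw [Finset.prod_congr rfl fun l _ => h4 l, ← Real.exp_sum]
    apply Real.exp_le_exp.2
    rw [Finset.sum_sub_distrib]
    have h5 : ∑ l, -(t l * X) / 2 = -X / 2 := by
      rw [← Finset.sum_div, Finset.sum_neg_distrib, ← Finset.sum_mul, ht.2, one_mul]
    rw [h5]
    linarith
  refine ⟨h1, ?_⟩
  intro a2 l2 C ha2 hl hz hl2 hC
  refine h1 0 a2 0 l2 C le_rfl ha2 (fun l => ⟨ht.1 l, hl l⟩) hz ?_ hl2 ?_
  · rw [zero_mul, hlam0]
  · rw [mul_zero, mul_zero, sub_zero, zero_add, one_mul, sub_zero]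
    exact hC

end Pool.Agent.Helper87.PT
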