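import Pool.Agent.Helper53.PT.GoalsB

/-!
# MP_705522_gt, packet PT-REST1: the product with exactly `j` arguments beyond `z`
-/

namespace Pool.Agent.Helper87.PT

open Pool.Agent.Helper53.PT

theorem gREST1 : GREST1 := by
  intro hRL hPROD hTAU θ z m xW xD yN hF n S s N j cap m0 m1 Q ul X0 X X1 x1 τ yl yu U P hN hs hm0
    h1 h2 hQ hul hX0 hX0X hXX1 hτ hTau hyl hyu hj hcard hU hP
  classical
  have hX : 0 < X := lt_of_lt_of_le hX0 hX0X
  have hz : 0 < z := hF.z0
  set J := S.filter (fun i => z < s i * X) with hJ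
  set R := S.filter (fun i => ¬ z < s i * X) with hR
  have hJS : J ⊆ S := Finset.filter_subset _ _
  have hJz : ∀ i ∈ J, z < s i * X := fun i hi => (Finset.mem_filter.1 hi).2
  have hRz : ∀ i ∈ R, 0 ≤ s i * X ∧ s i * X ≤ z := fun i hi =>
    ⟨mul_nonneg (hs i (Finset.mem_filter.1 hi).1).1 hX.le, not_lt.1 (Finset.mem_filter.1 hi).2⟩
  have hJne : J.Nonempty := Finset.card_pos.1 (by omega)
  have hsumJR : ∑ i ∈ J, s i + ∑ i ∈ R, s i = ∑ i ∈ S, s i :=
    Finset.sum_filter_add_sum_filter_not S _ _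
  have hcardJR : J.card + R.card = S.card :=
    Finset.card_filter_add_card_filter_not (fun i => z < s i * X)
  have hmulJ : ∑ i ∈ J, s i * X = (∑ i ∈ J, s i) * X := (Finset.sum_mul _ _ _).symm
  have hmulR : ∑ i ∈ R, s i * X = (∑ i ∈ R, s i) * X := (Finset.sum_mul _ _ _).symm
  have hJsum : ∑ i ∈ J, s i ≤ j * τ :=
    hTAU n S J s N j cap m0 m1 Q τ hJS hcard hj hN (fun i hi => (hs i hi).1)
      (fun i hi => (hs i hi).2.1) hm0 h1 h2 hQ hτ hTau
  have hJ0 : 0 ≤ ∑ i ∈ J, s i := Finset.sum_nonneg fun i hi => (hs i (hJS hi)).1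
  have hR0 : 0 ≤ ∑ i ∈ R, s i :=
    Finset.sum_nonneg fun i hi => (hs i (Finset.mem_filter.1 hi).1).1
  have hjR : (1 : ℝ) ≤ j := by exact_mod_cast hj
  -- upper bound of the mean
  have hup : ∑ i ∈ J, s i * X ≤ j * (τ * X1) := by
    rw [hmulJ]
    calc (∑ i ∈ J, s i) * X ≤ (j * τ) * X := mul_le_mul_of_nonneg_right hJsum hX.le
      _ ≤ (j * τ) * X1 := mul_le_mul_of_nonneg_left hXX1 (by positivity)
      _ = _ := by ring
  -- lower bound of the mean
  have hlow : j * yl ≤ ∑ i ∈ J, s i * X := by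
    rcases hyl with h | ⟨hNpos, h⟩
    · calc (j : ℝ) * yl ≤ j * z := mul_le_mul_of_nonneg_left h (by positivity)
        _ = ∑ _i ∈ J, z := by rw [Finset.sum_const, hcard, nsmul_eq_mul]
        _ ≤ _ := Finset.sum_le_sum fun i hi => (hJz i hi).le
    · have hSN : S.card = N := by
        rcases hN with h0 | h0
        · omega
        · exact h0
      have h3 : ∑ i ∈ R, s i * X ≤ ((N : ℝ) - j) * z := by
        calc ∑ i ∈ R, s i * X ≤ ∑ _i ∈ R, z := Finset.sum_le_sum fun i hi => (hRz i hi).2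
          _ = R.card * z := by rw [Finset.sum_const, nsmul_eq_mul]
          _ = _ := by
            have : (J.card : ℝ) + R.card = S.card := by exact_mod_cast hcardJR
            rw [hSN, hcard] at this
            rw [← this]; ring
      have h4 : m0 * X0 ≤ (∑ i ∈ S, s i) * X :=
        mul_le_mul h1 hX0X hX0.le (hm0.trans h1)
      rw [← hsumJR, add_mul, ← hmulJ, ← hmulR] at h4
      linarith
  -- the largest argument
  have hbig : ∃ i ∈ J, yu ≤ s i * X := by
    obtain ⟨i₀, hi₀⟩ := hJne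
    rcases hyu with h | h | h
    · have h3 : ∑ _i ∈ J, yl ≤ ∑ i ∈ J, s i * X := by
        rw [Finset.sum_const, hcard, nsmul_eq_mul]; exact hlow
      obtain ⟨i, hi, h4⟩ := Finset.exists_le_of_sum_le ⟨i₀, hi₀⟩ h3
      exact ⟨i, hi, h.trans h4⟩
    · exact ⟨i₀, hi₀, h.trans (hJz i₀ hi₀).le⟩
    · have h3 : 0 < ∑ i ∈ S, s i := by
        have h4 : 0 < s i₀ := by
          by_contra h5
          have := hJz i₀ hi₀
          have h6 : s i₀ * X ≤ 0 := mul_nonpos_of_nonpos_of_nonneg (not_lt.1 h5) hX.le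
          linarith
        exact Finset.sum_pos' (fun i hi => (hs i hi).1) ⟨i₀, hJS hi₀, h4⟩
      obtain ⟨i, hi, h4⟩ := hul h3
      have h5 : yu ≤ s i * X := by
        calc yu ≤ ul * X0 := h
          _ ≤ s i * X0 := mul_le_mul_of_nonneg_right h4 hX0.le
          _ ≤ s i * X := mul_le_mul_of_nonneg_left hX0X (hs i hi).1
      by_cases h6 : z < s i * X
      · exact ⟨i, Finset.mem_filter.2 ⟨hi, h6⟩, h5⟩
      · exact ⟨i₀, hi₀, (h5.trans (not_lt.1 h6)).trans (hJz i₀ hi₀).le⟩
  -- the product over `J`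
  have hA : |∏ i ∈ J, f0 θ (s i * X)| ≤ U := by
    rw [Finset.abs_prod]
    rcases hU with ⟨hj1, h⟩ | ⟨M, B, hM, hB, h⟩ | ⟨hx1, F, hFb, h⟩
    · rw [hj1] at hcard
      obtain ⟨i, hi⟩ := Finset.card_eq_one.1 hcard
      obtain ⟨i', hi', h3⟩ := hbig
      rw [hi] at hi' hup
      rw [Finset.mem_singleton] at hi'
      subst hi'
      rw [Finset.sum_singleton, hj1, Nat.cast_one, one_mul] at hup
      rw [hi, Finset.prod_singleton]
      exact h _ (hJz i' (by rw [hi]; exact Finset.mem_singleton_self _)).le h3 hup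
    · obtain ⟨i, hi, h3⟩ := hbig
      have hM0 : 0 ≤ M := (abs_nonneg _).trans (hM z le_rfl)
      rw [← Finset.mul_prod_erase J _ hi]
      have h4 : ∏ i' ∈ J.erase i, |f0 θ (s i' * X)| ≤ M ^ (j - 1) := by
        calc ∏ i' ∈ J.erase i, |f0 θ (s i' * X)| ≤ ∏ _i' ∈ J.erase i, M :=
              Finset.prod_le_prod (fun _ _ => abs_nonneg _)
                (fun i' hi' => hM _ (hJz i' (Finset.mem_of_mem_erase hi')).le)
          _ = _ := by rw [Finset.prod_const, Finset.card_erase_of_mem hi, hcard]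
      calc |f0 θ (s i * X)| * ∏ i' ∈ J.erase i, |f0 θ (s i' * X)| ≤ B * M ^ (j - 1) :=
            mul_le_mul (hB _ (hJz i hi).le h3) h4
              (Finset.prod_nonneg fun _ _ => abs_nonneg _)
              ((abs_nonneg _).trans (hB _ (hJz i hi).le h3))
        _ = M ^ (j - 1) * B := mul_comm _ _
        _ ≤ U := h
    · have h3 := (hPROD hRL θ z m xW xD yN hF n J (fun i => s i * X)).2.2.1
        (fun i hi => ⟨hJz i hi, ((hs i (hJS hi)).2.2).trans hx1⟩) yl (τ * X1) F hJne
        (by rw [hcard]; exact hlow) (by rw [hcard]; exact hup) hFb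
      rw [hcard] at h3
      exact h3.trans h
  -- the product over `R`
  have hRsum : 0 ≤ ∑ i ∈ R, s i * X := Finset.sum_nonneg fun i hi => (hRz i hi).1
  have hRlow : (m0 - j * τ) * X0 ≤ ∑ i ∈ R, s i * X := by
    rcases le_or_gt 0 (m0 - j * τ) with h | h
    · rw [hmulR]
      have h3 : m0 - j * τ ≤ ∑ i ∈ R, s i := by linarith
      exact mul_le_mul h3 hX0X hX0.le hR0
    · have : (m0 - j * τ) * X0 ≤ 0 := mul_nonpos_of_nonpos_of_nonneg h.le hX0.le
      linarith
  obtain ⟨hB0, hBexp⟩ := (hPROD hRL θ z m xW xD yN hF n R (fun i => s i * X)).1 hRz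
  have hB1 : ∏ i ∈ R, f0 θ (s i * X) ≤ P := by
    rcases hP with h | h | ⟨hjN, p, hp0, hp, h⟩
    · refine (hBexp.trans (Real.exp_le_exp.2 ?_)).trans h
      linarith
    · refine hBexp.trans (le_trans ?_ h)
      rw [Real.exp_le_one_iff]
      linarith
    · have hSN : S.card = N := by
        rcases hN with h0 | h0
        · omega
        · exact h0
      have hRc : R.card = N - j := by omega
      have hNj : (0 : ℝ) < (N : ℝ) - j := by
        have : (j : ℝ) < N := by exact_mod_cast hjN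
        linarith
      have hRcR : (R.card : ℝ) = (N : ℝ) - j := by
        rw [hRc, Nat.cast_sub hjN.le]
      have h3 := (hPROD hRL θ z m xW xD yN hF n R (fun i => s i * X)).2.1 hRz
        ((m0 - j * τ) * X0 / ((N : ℝ) - j)) p (Finset.card_pos.1 (by omega))
        (by rw [hRcR, mul_div_cancel₀ _ hNj.ne']; exact hRlow) hp0
        (fun x hx0 hx1 hx2 => hp x hx0 (by
          rw [div_le_iff₀ hNj] at hx1
          rw [mul_comm ((N : ℝ) - j)]; exact hx1) hx2)
      rw [hRc] at h3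
      exact h3.trans h
  have hprod : ∏ i ∈ S, f0 θ (s i * X) =
      (∏ i ∈ J, f0 θ (s i * X)) * ∏ i ∈ R, f0 θ (s i * X) :=
    (Finset.prod_filter_mul_prod_filter_not S _ _).symm
  rw [hprod, abs_mul, abs_of_nonneg hB0]
  exact mul_le_mul hA hB1 hB0 ((abs_nonneg _).trans hA)

end Pool.Agent.Helper87.PT
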