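import Pool.Agent.Helper53.PT.GoalsA

/-!
# MP_705522_gt, packet PT-ROT: rotation of the contour
-/

namespace Pool.Agent.Helper87.PT

open MeasureTheory Set Filter Topology
open Pool.Agent.Helper53.PT (Ik GROT)

/-- the exponent -/
noncomputable def EE (c β q t α ρ : ℝ) : ℂ :=
  Complex.I * α * β - ((c * ρ ^ q : ℝ) : ℂ) * Complex.exp (Complex.I * (q * α)) +
    Complex.I * t * ρ * Complex.exp (Complex.I * α)

/-- the rotated integrand -/
noncomputable def hh (c β q t α ρ : ℝ) : ℂ :=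
  ((ρ ^ (β - 1) : ℝ) : ℂ) * Complex.exp (EE c β q t α ρ)

/-- its derivative in the angle -/
noncomputable def dh (c β q t α ρ : ℝ) : ℂ := hh c β q t α ρ *
  (Complex.I * β - Complex.I * q * ((c * ρ ^ q : ℝ) : ℂ) * Complex.exp (Complex.I * (q * α)) -
    t * ρ * Complex.exp (Complex.I * α))

/-- the primitive in the radius -/
noncomputable def kk (c β q t α ρ : ℝ) : ℂ :=
  Complex.I * ((ρ ^ β : ℝ) : ℂ) * Complex.exp (EE c β q t α ρ)

theorem hasDerivAt_alpha (c β q t α ρ : ℝ) :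
    HasDerivAt (fun α : ℝ => hh c β q t α ρ) (dh c β q t α ρ) α := by
  have hid : HasDerivAt (fun α : ℝ => (α : ℂ)) 1 α := Complex.ofRealCLM.hasDerivAt
  have h1 : HasDerivAt (fun α : ℝ => Complex.I * (α : ℂ) * β) (Complex.I * β) α := by
    have := (hid.const_mul Complex.I).mul_const (β : ℂ)
    simpa using this
  have h2 : HasDerivAt (fun α : ℝ => Complex.exp (Complex.I * (q * (α : ℂ))))
      (Complex.exp (Complex.I * (q * (α : ℂ))) * (Complex.I * q)) α := by
    have := ((hid.const_mul (q : ℂ)).const_mul Complex.I).cexp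
    simpa using this
  have h3 : HasDerivAt (fun α : ℝ => Complex.exp (Complex.I * (α : ℂ)))
      (Complex.exp (Complex.I * (α : ℂ)) * Complex.I) α := by
    have := (hid.const_mul Complex.I).cexp
    simpa using this
  have h4 := ((h1.sub (h2.const_mul ((c * ρ ^ q : ℝ) : ℂ))).add
    (h3.const_mul (Complex.I * t * ρ))).cexp.const_mul ((ρ ^ (β - 1) : ℝ) : ℂ)
  refine h4.congr_deriv ?_
  unfold dh hh EE
  have hI : Complex.I * Complex.I = -1 := Complex.I_mul_I
  linear_combination (((ρ ^ (β - 1) : ℝ) : ℂ) * Complex.exp (Complex.I * α * β -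
    ((c * ρ ^ q : ℝ) : ℂ) * Complex.exp (Complex.I * (q * α)) +
    Complex.I * t * ρ * Complex.exp (Complex.I * α)) * t * ρ * Complex.exp (Complex.I * α)) * hI

theorem hasDerivAt_rho (c β q t α ρ : ℝ) (hρ : 0 < ρ) :
    HasDerivAt (fun ρ : ℝ => kk c β q t α ρ) (dh c β q t α ρ) ρ := by
  have hid : HasDerivAt (fun ρ : ℝ => (ρ : ℂ)) 1 ρ := Complex.ofRealCLM.hasDerivAt
  have h1 : HasDerivAt (fun ρ : ℝ => ((c * ρ ^ q : ℝ) : ℂ)) (((c * (q * ρ ^ (q - 1)) : ℝ)) : ℂ) ρ :=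
    ((Real.hasDerivAt_rpow_const (Or.inl hρ.ne')).const_mul c).ofReal_comp
  have h2 : HasDerivAt (fun ρ : ℝ => ((ρ ^ β : ℝ) : ℂ)) (((β * ρ ^ (β - 1) : ℝ)) : ℂ) ρ :=
    (Real.hasDerivAt_rpow_const (Or.inl hρ.ne')).ofReal_comp
  have h3 := (((h1.mul_const (Complex.exp (Complex.I * (q * α)))).const_sub
    (Complex.I * α * β)).add ((hid.const_mul (Complex.I * t)).mul_const
      (Complex.exp (Complex.I * α)))).cexp
  have h4 := (h2.const_mul Complex.I).mul h3
  refine h4.congr_deriv ?_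
  have e1 : ρ ^ β = ρ ^ (β - 1) * ρ := by
    rw [← Real.rpow_add_one hρ.ne']; ring_nf
  have e2 : ρ ^ q = ρ ^ (q - 1) * ρ := by
    rw [← Real.rpow_add_one hρ.ne']; ring_nf
  have e1' : ((ρ ^ β : ℝ) : ℂ) = ((ρ ^ (β - 1) : ℝ) : ℂ) * (ρ : ℂ) := by
    rw [e1]; push_cast; ring
  have e2' : (ρ : ℂ) * ((ρ ^ (q - 1) : ℝ) : ℂ) = ((ρ ^ q : ℝ) : ℂ) := by
    rw [e2]; push_cast; ring
  unfold dh hh EE
  have hI : Complex.I * Complex.I = -1 := Complex.I_mul_I
  rw [e1']
  push_cast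
  set X := Complex.exp (Complex.I * α * β -
    (c : ℂ) * ((ρ ^ q : ℝ) : ℂ) * Complex.exp (Complex.I * (q * α)) +
    Complex.I * t * ρ * Complex.exp (Complex.I * α)) with hX
  linear_combination (((ρ ^ (β - 1) : ℝ) : ℂ) * X * t * ρ * Complex.exp (Complex.I * α)) * hI -
    (((ρ ^ (β - 1) : ℝ) : ℂ) * X * Complex.I * q * c * Complex.exp (Complex.I * (q * α))) * e2'

theorem EE_re (c β q t α ρ : ℝ) :
    (EE c β q t α ρ).re = -(c * ρ ^ q * Real.cos (q * α)) - t * ρ * Real.sin α := by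
  have h1 : (Complex.exp (Complex.I * (q * α))).re = Real.cos (q * α) := by
    have e : Complex.I * ((q : ℂ) * (α : ℂ)) = ((q * α : ℝ) : ℂ) * Complex.I := by
      push_cast; ring
    rw [e, Complex.exp_ofReal_mul_I_re]
  have h2 : (Complex.exp (Complex.I * α)).im = Real.sin α := by
    rw [mul_comm, Complex.exp_ofReal_mul_I_im]
  have e3 : (Complex.I * (α : ℂ) * (β : ℂ)).re = 0 := by
    simp
  have e4 : (Complex.I * (t : ℂ) * (ρ : ℂ) * Complex.exp (Complex.I * α)).re =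
      -(t * ρ * Real.sin α) := by
    have : Complex.I * (t : ℂ) * (ρ : ℂ) * Complex.exp (Complex.I * α) =
        ((t * ρ : ℝ) : ℂ) * (Complex.I * Complex.exp (Complex.I * α)) := by
      push_cast; ring
    rw [this, Complex.re_ofReal_mul, Complex.I_mul_re, h2]
    ring
  unfold EE
  rw [Complex.add_re, Complex.sub_re, e3, e4, Complex.re_ofReal_mul, h1]
  ring

theorem norm_exp_EE (c β q t α ρ : ℝ) : ‖Complex.exp (EE c β q t α ρ)‖ =
    Real.exp (-(c * ρ ^ q * Real.cos (q * α)) - t * ρ * Real.sin α) := by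
  rw [Complex.norm_exp, EE_re]

theorem norm_hh (c β q t α ρ : ℝ) (hρ : 0 ≤ ρ) : ‖hh c β q t α ρ‖ =
    ρ ^ (β - 1) * Real.exp (-(c * ρ ^ q * Real.cos (q * α)) - t * ρ * Real.sin α) := by
  unfold hh
  rw [norm_mul, norm_exp_EE, Complex.norm_real, Real.norm_eq_abs,
    abs_of_nonneg (Real.rpow_nonneg hρ _)]

theorem norm_kk (c β q t α ρ : ℝ) (hρ : 0 ≤ ρ) : ‖kk c β q t α ρ‖ =
    ρ ^ β * Real.exp (-(c * ρ ^ q * Real.cos (q * α)) - t * ρ * Real.sin α) := by
  unfold kk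
  rw [norm_mul, norm_exp_EE, norm_mul, Complex.norm_I, one_mul, Complex.norm_real,
    Real.norm_eq_abs, abs_of_nonneg (Real.rpow_nonneg hρ _)]

theorem continuous_rpow_c {p : ℝ} (hp : 0 ≤ p) : Continuous (fun x : ℝ × ℝ => ((x.2 ^ p : ℝ) : ℂ)) :=
  Complex.continuous_ofReal.comp (continuous_snd.rpow_const fun _ => Or.inr hp)

theorem continuous_rpow_c' (c : ℝ) {p : ℝ} (hp : 0 ≤ p) :
    Continuous (fun x : ℝ × ℝ => ((c * x.2 ^ p : ℝ) : ℂ)) :=
  Complex.continuous_ofReal.comp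
    (continuous_const.mul (continuous_snd.rpow_const fun _ => Or.inr hp))

theorem continuous_EE (c β q t : ℝ) (hq : 0 ≤ q) :
    Continuous (fun x : ℝ × ℝ => EE c β q t x.1 x.2) := by
  unfold EE
  have h1 := continuous_rpow_c' c hq
  have h2 : Continuous (fun x : ℝ × ℝ => (x.1 : ℂ)) := Complex.continuous_ofReal.comp continuous_fst
  have h3 : Continuous (fun x : ℝ × ℝ => (x.2 : ℂ)) := Complex.continuous_ofReal.comp continuous_snd
  fun_prop

theorem continuous_hh (c β q t : ℝ) (hβ : 1 ≤ β) (hq : 0 ≤ q) :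
    Continuous (fun x : ℝ × ℝ => hh c β q t x.1 x.2) := by
  unfold hh
  exact (continuous_rpow_c (by linarith)).mul (continuous_EE c β q t hq).cexp

theorem continuous_dh (c β q t : ℝ) (hβ : 1 ≤ β) (hq : 0 ≤ q) :
    Continuous (fun x : ℝ × ℝ => dh c β q t x.1 x.2) := by
  unfold dh
  have h0 := continuous_hh c β q t hβ hq
  have h1 := continuous_rpow_c' c hq
  have h2 : Continuous (fun x : ℝ × ℝ => (x.1 : ℂ)) := Complex.continuous_ofReal.comp continuous_fst
  have h3 : Continuous (fun x : ℝ × ℝ => (x.2 : ℂ)) := Complex.continuous_ofReal.comp continuous_snd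
  fun_prop

theorem continuous_kk (c β q t : ℝ) (hβ : 1 ≤ β) (hq : 0 ≤ q) :
    Continuous (fun x : ℝ × ℝ => kk c β q t x.1 x.2) := by
  unfold kk
  exact (continuous_const.mul (continuous_rpow_c (by linarith))).mul (continuous_EE c β q t hq).cexp

/-- the finite form of the rotation -/
theorem rot_fin (c β q t a1 a2 R : ℝ) (hβ : 1 ≤ β) (hq : 0 ≤ q) (hR : 0 < R) :
    (∫ ρ in (0 : ℝ)..R, hh c β q t a2 ρ) - ∫ ρ in (0 : ℝ)..R, hh c β q t a1 ρ =
      ∫ α in a1..a2, kk c β q t α R := by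
  have hc := continuous_hh c β q t hβ hq
  have hcd := continuous_dh c β q t hβ hq
  have hck := continuous_kk c β q t hβ hq
  have hca : ∀ α : ℝ, Continuous (fun ρ : ℝ => hh c β q t α ρ) := fun α =>
    hc.comp (continuous_const.prodMk continuous_id)
  have hcdρ : ∀ α : ℝ, Continuous (fun ρ : ℝ => dh c β q t α ρ) := fun α =>
    hcd.comp (continuous_const.prodMk continuous_id)
  have hcdα : ∀ ρ : ℝ, Continuous (fun α : ℝ => dh c β q t α ρ) := fun ρ =>
    hcd.comp (continuous_id.prodMk continuous_const)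
  have hckρ : ∀ α : ℝ, Continuous (fun ρ : ℝ => kk c β q t α ρ) := fun α =>
    hck.comp (continuous_const.prodMk continuous_id)
  rw [← intervalIntegral.integral_sub ((hca a2).intervalIntegrable _ _)
    ((hca a1).intervalIntegrable _ _)]
  have h1 : ∀ ρ : ℝ, hh c β q t a2 ρ - hh c β q t a1 ρ = ∫ α in a1..a2, dh c β q t α ρ := by
    intro ρ
    exact (intervalIntegral.integral_eq_sub_of_hasDerivAt
      (fun α _ => hasDerivAt_alpha c β q t α ρ) ((hcdα ρ).intervalIntegrable _ _)).symm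
  have h2 : ∀ α : ℝ, ∫ ρ in (0 : ℝ)..R, dh c β q t α ρ = kk c β q t α R := by
    intro α
    have h3 := intervalIntegral.integral_eq_sub_of_hasDerivAt_of_le hR.le
      (f := fun ρ => kk c β q t α ρ) (f' := fun ρ => dh c β q t α ρ)
      ((hckρ α).continuousOn) (fun ρ hρ => hasDerivAt_rho c β q t α ρ hρ.1)
      ((hcdρ α).intervalIntegrable _ _)
    rw [h3]
    have h4 : kk c β q t α 0 = 0 := by
      unfold kk
      rw [Real.zero_rpow (by linarith)]
      simp
    rw [h4, sub_zero]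
  simp_rw [h1]
  rw [MeasureTheory.intervalIntegral_intervalIntegral_swap (F := fun ρ α => dh c β q t α ρ)]
  · exact intervalIntegral.integral_congr fun α _ => h2 α
  · have hcont : Continuous (Function.uncurry fun ρ α : ℝ => dh c β q t α ρ) :=
      hcd.comp (continuous_snd.prodMk continuous_fst)
    refine (hcont.continuousOn.integrableOn_compact
      ((isCompact_uIcc (a := (0 : ℝ)) (b := R)).prod (isCompact_uIcc (a := a1) (b := a2)))).mono_set ?_
    exact Set.prod_mono uIoc_subset_uIcc uIoc_subset_uIcc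

theorem int_hh_zero (β q t : ℝ) (hβ : 1 ≤ β) (hq : 0 < q) :
    IntegrableOn (fun ρ => hh 1 β q t 0 ρ) (Ioi 0) := by
  have h1 : IntegrableOn (fun x : ℝ => x ^ (β - 1) * Real.exp (-x ^ q)) (Ioi 0) :=
    integrableOn_rpow_mul_exp_neg_rpow (by linarith) hq
  refine Integrable.mono' h1 ?_ ?_
  · exact ((continuous_hh 1 β q t hβ hq.le).comp
      (continuous_const.prodMk continuous_id)).aestronglyMeasurable.restrict
  · refine (ae_restrict_iff' measurableSet_Ioi).2 (ae_of_all _ fun x hx => ?_)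
    rw [norm_hh _ _ _ _ _ _ (le_of_lt hx)]
    simp

theorem int_hh (c β q t a : ℝ) (_hc0 : 0 ≤ c) (hβ : 1 ≤ β) (hq : 0 < q) (ht : 0 < t)
    (ha : 0 < Real.sin a) (hc : 0 ≤ c * Real.cos (q * a)) :
    IntegrableOn (fun ρ => hh c β q t a ρ) (Ioi 0) := by
  have h1 : IntegrableOn (fun x : ℝ => x ^ (β - 1) * Real.exp (-(t * Real.sin a) * x ^ (1 : ℝ)))
      (Ioi 0) :=
    integrableOn_rpow_mul_exp_neg_mul_rpow (by linarith) one_pos (by positivity)
  refine Integrable.mono' h1 ?_ ?_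
  · exact ((continuous_hh c β q t hβ hq.le).comp
      (continuous_const.prodMk continuous_id)).aestronglyMeasurable.restrict
  · refine (ae_restrict_iff' measurableSet_Ioi).2 (ae_of_all _ fun x hx => ?_)
    have hx0 : (0 : ℝ) < x := hx
    rw [norm_hh _ _ _ _ _ _ hx0.le, Real.rpow_one]
    have h2 : 0 ≤ x ^ q * (c * Real.cos (q * a)) := mul_nonneg (Real.rpow_nonneg hx0.le _) hc
    have h3 : Real.exp (-(c * x ^ q * Real.cos (q * a)) - t * x * Real.sin a) ≤
        Real.exp (-(t * Real.sin a) * x) := by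
      apply Real.exp_le_exp.2
      nlinarith
    exact mul_le_mul_of_nonneg_left h3 (Real.rpow_nonneg hx0.le _)

/-- the general form of the rotation -/
theorem rot_gen (c β q t a1 a2 b1 b2 : ℝ) (hβ : 1 ≤ β) (hq : 0 ≤ q)
    (hb1 : 0 < b1) (hb2 : 0 < b2)
    (hi1 : IntegrableOn (fun ρ => hh c β q t a1 ρ) (Ioi 0))
    (hi2 : IntegrableOn (fun ρ => hh c β q t a2 ρ) (Ioi 0))
    (hbound : ∀ R : ℝ, 1 ≤ R → ∀ α ∈ Set.uIoc a1 a2, ‖kk c β q t α R‖ ≤
      R ^ β * Real.exp (-b1 * R) + R ^ β * Real.exp (-b2 * R)) :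
    ∫ ρ in Ioi (0 : ℝ), hh c β q t a2 ρ = ∫ ρ in Ioi (0 : ℝ), hh c β q t a1 ρ := by
  have hlim0 : Tendsto (fun R : ℝ => ∫ α in a1..a2, kk c β q t α R) atTop (𝓝 0) := by
    have hb : Tendsto (fun R : ℝ => (R ^ β * Real.exp (-b1 * R) +
        R ^ β * Real.exp (-b2 * R)) * |a2 - a1|) atTop (𝓝 0) := by
      have h1 := tendsto_rpow_mul_exp_neg_mul_atTop_nhds_zero β b1 hb1
      have h2 := tendsto_rpow_mul_exp_neg_mul_atTop_nhds_zero β b2 hb2
      have h3 := (h1.add h2).mul_const |a2 - a1|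
      simpa using h3
    refine squeeze_zero_norm' ?_ hb
    filter_upwards [eventually_ge_atTop (1 : ℝ)] with R hR
    exact intervalIntegral.norm_integral_le_of_norm_le_const (hbound R hR)
  have hlim1 : Tendsto (fun R : ℝ => (∫ ρ in (0 : ℝ)..R, hh c β q t a2 ρ) -
      ∫ ρ in (0 : ℝ)..R, hh c β q t a1 ρ) atTop
      (𝓝 ((∫ ρ in Ioi (0 : ℝ), hh c β q t a2 ρ) - ∫ ρ in Ioi (0 : ℝ), hh c β q t a1 ρ)) :=
    (intervalIntegral_tendsto_integral_Ioi 0 hi2 tendsto_id).sub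
      (intervalIntegral_tendsto_integral_Ioi 0 hi1 tendsto_id)
  have hlim2 : Tendsto (fun R : ℝ => (∫ ρ in (0 : ℝ)..R, hh c β q t a2 ρ) -
      ∫ ρ in (0 : ℝ)..R, hh c β q t a1 ρ) atTop (𝓝 0) := by
    refine hlim0.congr' ?_
    filter_upwards [eventually_gt_atTop (0 : ℝ)] with R hR
    exact (rot_fin c β q t a1 a2 R hβ hq hR).symm
  exact sub_eq_zero.1 (tendsto_nhds_unique hlim1 hlim2)

/-- the rotation to the angle `π/(2q)` -/
theorem rot (β q t : ℝ) (hβ : 1 ≤ β) (hq : 2 < q) (ht : 0 < t) :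
    ∫ ρ in Ioi (0 : ℝ), hh 1 β q t (Real.pi / (2 * q)) ρ =
      ∫ ρ in Ioi (0 : ℝ), hh 1 β q t 0 ρ := by
  have hq0 : 0 < q := by linarith
  have hpi := Real.pi_pos
  set a : ℝ := Real.pi / (2 * q) with ha
  have ha0 : 0 < a := by positivity
  have hqa : q * a = Real.pi / 2 := by rw [ha]; field_simp
  have ha1 : a ≤ Real.pi / 2 := by nlinarith
  have hsin : 0 < Real.sin a := Real.sin_pos_of_pos_of_lt_pi ha0 (by linarith)
  have hcos : Real.cos (q * a) = 0 := by rw [hqa, Real.cos_pi_div_two]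
  set s0 : ℝ := Real.sin (a / 2) with hs0
  have hs0pos : 0 < s0 := Real.sin_pos_of_pos_of_lt_pi (by linarith) (by linarith)
  refine rot_gen 1 β q t 0 a (1 / 2) (t * s0) hβ hq0.le (by norm_num) (by positivity)
    (int_hh_zero β q t hβ hq0) (int_hh 1 β q t a zero_le_one hβ hq0 ht hsin (by rw [hcos]; simp)) ?_
  intro R hR α hα
  rw [Set.uIoc_of_le ha0.le] at hα
  have hR0 : 0 < R := by linarith
  have hRβ : 0 ≤ R ^ β := Real.rpow_nonneg hR0.le _
  have hRq : R ≤ R ^ q := by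
    have := Real.rpow_le_rpow_of_exponent_le hR (show (1 : ℝ) ≤ q by linarith)
    rwa [Real.rpow_one] at this
  have hqα : q * α ≤ Real.pi / 2 := by
    rw [← hqa]; exact mul_le_mul_of_nonneg_left hα.2 hq0.le
  have hqα0 : 0 ≤ q * α := mul_nonneg hq0.le hα.1.le
  have hcos0 : 0 ≤ Real.cos (q * α) := Real.cos_nonneg_of_neg_pi_div_two_le_of_le
    (by linarith) hqα
  have hsin0 : 0 ≤ Real.sin α := Real.sin_nonneg_of_nonneg_of_le_pi hα.1.le (by linarith [hα.2])
  rw [norm_kk _ _ _ _ _ _ hR0.le, one_mul]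
  rcases le_total α (a / 2) with h | h
  · have h1 : q * α ≤ Real.pi / 4 := by
      have : q * α ≤ q * (a / 2) := mul_le_mul_of_nonneg_left h hq0.le
      linarith
    have h2 : (1 / 2 : ℝ) ≤ Real.cos (q * α) := by
      have h3 : Real.cos (Real.pi / 3) ≤ Real.cos (q * α) :=
        Real.cos_le_cos_of_nonneg_of_le_pi hqα0 (by linarith) (by linarith)
      rwa [Real.cos_pi_div_three] at h3
    have h4 : -(R ^ q * Real.cos (q * α)) - t * R * Real.sin α ≤ -(1 / 2) * R := by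
      have h5 : R * (1 / 2) ≤ R ^ q * Real.cos (q * α) :=
        mul_le_mul hRq h2 (by norm_num) (by linarith)
      have h6 : 0 ≤ t * R * Real.sin α := by positivity
      linarith
    have h7 := mul_le_mul_of_nonneg_left (Real.exp_le_exp.2 h4) hRβ
    have h8 : 0 ≤ R ^ β * Real.exp (-(t * s0) * R) := by positivity
    linarith
  · have h1 : s0 ≤ Real.sin α := Real.sin_le_sin_of_le_of_le_pi_div_two (by linarith)
      (by linarith [hα.2]) h
    have h4 : -(R ^ q * Real.cos (q * α)) - t * R * Real.sin α ≤ -(t * s0) * R := by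
      have h5 : 0 ≤ R ^ q * Real.cos (q * α) := by positivity
      have h6 : t * R * s0 ≤ t * R * Real.sin α := mul_le_mul_of_nonneg_left h1 (by positivity)
      linarith
    have h7 := mul_le_mul_of_nonneg_left (Real.exp_le_exp.2 h4) hRβ
    have h8 : 0 ≤ R ^ β * Real.exp (-(1 / 2) * R) := by positivity
    linarith

/-- the rotation without the power, to the angle `π/2` -/
theorem rot0 (β q t a : ℝ) (hβ : 1 ≤ β) (hq : 0 < q) (ht : 0 < t) (ha0 : 0 < a)
    (ha1 : a ≤ Real.pi / 2) :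
    ∫ ρ in Ioi (0 : ℝ), hh 0 β q t a ρ = ∫ ρ in Ioi (0 : ℝ), hh 0 β q t (Real.pi / 2) ρ := by
  have hpi := Real.pi_pos
  have hsin : 0 < Real.sin a := Real.sin_pos_of_pos_of_lt_pi ha0 (by linarith)
  refine (rot_gen 0 β q t a (Real.pi / 2) (t * Real.sin a) (t * Real.sin a) hβ hq.le
    (by positivity) (by positivity)
    (int_hh 0 β q t a le_rfl hβ hq ht hsin (by simp))
    (int_hh 0 β q t (Real.pi / 2) le_rfl hβ hq ht (by simp) (by simp)) ?_).symm
  intro R hR α hα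
  rw [Set.uIoc_of_le ha1] at hα
  have hR0 : 0 < R := by linarith
  have hRβ : 0 ≤ R ^ β := Real.rpow_nonneg hR0.le _
  rw [norm_kk _ _ _ _ _ _ hR0.le]
  have h1 : Real.sin a ≤ Real.sin α := Real.sin_le_sin_of_le_of_le_pi_div_two (by linarith)
    hα.2 hα.1.le
  have h4 : -(0 * R ^ q * Real.cos (q * α)) - t * R * Real.sin α ≤ -(t * Real.sin a) * R := by
    have h6 : t * R * Real.sin a ≤ t * R * Real.sin α := mul_le_mul_of_nonneg_left h1 (by positivity)
    linarith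
  have h7 := mul_le_mul_of_nonneg_left (Real.exp_le_exp.2 h4) hRβ
  have h8 : 0 ≤ R ^ β * Real.exp (-(t * Real.sin a) * R) := by positivity
  linarith

theorem real_int (b r : ℝ) (hb : 0 < b) (hr : 0 < r) :
    IntegrableOn (fun x : ℝ => x ^ (b - 1) * Real.exp (-(r * x))) (Ioi 0) ∧
      ∫ x in Ioi (0 : ℝ), x ^ (b - 1) * Real.exp (-(r * x)) = Real.Gamma b * r ^ (-b) := by
  constructor
  · have h1 : IntegrableOn (fun x : ℝ => x ^ (b - 1) * Real.exp (-r * x ^ (1 : ℝ))) (Ioi 0) :=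
      integrableOn_rpow_mul_exp_neg_mul_rpow (by linarith) one_pos hr
    refine h1.congr_fun (fun x _ => ?_) measurableSet_Ioi
    simp only [Real.rpow_one, neg_mul]
  · rw [Real.integral_rpow_mul_exp_neg_mul_Ioi hb hr, mul_comm, one_div,
      Real.inv_rpow hr.le, Real.rpow_neg hr.le]

/-- the main term -/
theorem integral_main (β q t a : ℝ) (hβ : 1 ≤ β) (hq : 0 < q) (ht : 0 < t) (ha0 : 0 < a)
    (ha1 : a ≤ Real.pi / 2) :
    ∫ ρ in Ioi (0 : ℝ), hh 0 β q t a ρ = ((Real.Gamma β * t ^ (-β) : ℝ) : ℂ) *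
      Complex.exp (Complex.I * (Real.pi * β / 2)) := by
  rw [rot0 β q t a hβ hq ht ha0 ha1]
  have h1 : ∀ ρ : ℝ, hh 0 β q t (Real.pi / 2) ρ =
      ((ρ ^ (β - 1) * Real.exp (-(t * ρ)) : ℝ) : ℂ) *
        Complex.exp (Complex.I * (Real.pi * β / 2)) := by
    intro ρ
    unfold hh EE
    have e1 : Complex.exp (Complex.I * ((Real.pi / 2 : ℝ) : ℂ)) = Complex.I := by
      have : Complex.I * ((Real.pi / 2 : ℝ) : ℂ) = (Real.pi : ℂ) / 2 * Complex.I := by
        push_cast; ring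
      rw [this, Complex.exp_pi_div_two_mul_I]
    rw [e1]
    have e2 : Complex.I * ((Real.pi / 2 : ℝ) : ℂ) * (β : ℂ) - ((0 * ρ ^ q : ℝ) : ℂ) *
        Complex.exp (Complex.I * (q * ((Real.pi / 2 : ℝ) : ℂ))) +
        Complex.I * t * ρ * Complex.I = ((-(t * ρ) : ℝ) : ℂ) + Complex.I * (Real.pi * β / 2) := by
      have hI : Complex.I * Complex.I = -1 := Complex.I_mul_I
      push_cast
      linear_combination ((t : ℂ) * ρ) * hI
    rw [e2, Complex.exp_add, ← Complex.ofReal_exp]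
    push_cast
    ring
  simp_rw [h1]
  rw [integral_mul_const]
  congr 1
  rw [← (real_int β t (by linarith) ht).2]
  exact integral_complex_ofReal

theorem Ik_eq (q : ℝ) (k : ℕ) (t : ℝ) :
    Ik q k t = ∫ ρ in Ioi (0 : ℝ), hh 1 (q - 1 + k) q t 0 ρ := by
  unfold Ik
  refine setIntegral_congr_fun measurableSet_Ioi fun y hy => ?_
  unfold hh EE
  have e : q - 1 + (k : ℝ) - 1 = q - 2 + k := by ring
  rw [e]
  have e2 : Complex.I * ((0 : ℝ) : ℂ) * ((q - 1 + k : ℝ) : ℂ) - ((1 * y ^ q : ℝ) : ℂ) *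
      Complex.exp (Complex.I * (q * ((0 : ℝ) : ℂ))) +
      Complex.I * t * y * Complex.exp (Complex.I * ((0 : ℝ) : ℂ)) =
      ((-y ^ q : ℝ) : ℂ) + Complex.I * (t * y) := by
    push_cast
    simp
    ring
  rw [e2, Complex.exp_add, ← Complex.ofReal_exp]
  push_cast
  ring

theorem gROT : GROT := by
  intro q hq hq4 k t ht
  have hq0 : 0 < q := by linarith
  have hpi := Real.pi_pos
  have hk : (0 : ℝ) ≤ k := Nat.cast_nonneg k
  set β : ℝ := q - 1 + k with hβdef
  have hβ : 1 ≤ β := by rw [hβdef]; linarith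
  set a : ℝ := Real.pi / (2 * q) with ha
  have ha0 : 0 < a := by positivity
  have hqa : q * a = Real.pi / 2 := by rw [ha]; field_simp
  have ha1 : a ≤ Real.pi / 2 := by nlinarith
  have hsin : 0 < Real.sin a := Real.sin_pos_of_pos_of_lt_pi ha0 (by linarith)
  have hcos : Real.cos (q * a) = 0 := by rw [hqa, Real.cos_pi_div_two]
  have hr : 0 < t * Real.sin a := by positivity
  have hIk : Ik q k t = ∫ ρ in Ioi (0 : ℝ), hh 1 β q t a ρ := by
    rw [Ik_eq, rot β q t hβ hq ht]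
  have hn : ∀ c : ℝ, ∀ ρ ∈ Ioi (0 : ℝ), ‖hh c β q t a ρ‖ =
      ρ ^ (β - 1) * Real.exp (-(t * Real.sin a * ρ)) := by
    intro c ρ hρ
    rw [norm_hh _ _ _ _ _ _ (le_of_lt hρ), hcos]
    congr 2
    ring
  constructor
  · rw [hIk]
    refine (norm_integral_le_integral_norm _).trans (le_of_eq ?_)
    rw [setIntegral_congr_fun measurableSet_Ioi (hn 1)]
    exact (real_int β (t * Real.sin a) (by linarith) hr).2
  · have hmain := integral_main β q t a hβ hq0 ht ha0 ha1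
    have e0 : ((Real.Gamma β * t ^ (-β) : ℝ) : ℂ) * Complex.exp (Complex.I * (Real.pi * β / 2)) =
        ((Real.Gamma β * t ^ (-β) : ℝ) : ℂ) *
          Complex.exp (Complex.I * (Real.pi * (q - 1 + k) / 2)) := by
      rw [hβdef]; push_cast; rfl
    rw [← e0, ← hmain, hIk]
    have hi1 := int_hh 1 β q t a zero_le_one hβ hq0 ht hsin (by rw [hcos]; simp)
    have hi0 := int_hh 0 β q t a le_rfl hβ hq0 ht hsin (by simp)
    rw [← integral_sub hi1 hi0]
    refine (norm_integral_le_integral_norm _).trans ?_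
    have hb : 0 < 2 * q - 1 + (k : ℝ) := by linarith
    obtain ⟨hI1, hI2⟩ := real_int (2 * q - 1 + k) (t * Real.sin a) hb hr
    rw [← hI2]
    refine setIntegral_mono_on (hi1.sub hi0).norm hI1 measurableSet_Ioi fun ρ hρ => ?_
    have hρ0 : (0 : ℝ) < ρ := hρ
    have e1 : hh 1 β q t a ρ = hh 0 β q t a ρ * Complex.exp (Complex.I * ((-(ρ ^ q) : ℝ) : ℂ)) := by
      unfold hh
      rw [mul_assoc, ← Complex.exp_add]
      congr 2
      unfold EE
      have e2 : Complex.exp (Complex.I * (q * (a : ℂ))) = Complex.I := by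
        have : Complex.I * ((q : ℂ) * (a : ℂ)) = (Real.pi : ℂ) / 2 * Complex.I := by
          have h3 : ((q * a : ℝ) : ℂ) = ((Real.pi / 2 : ℝ) : ℂ) := by rw [hqa]
          push_cast at h3
          rw [h3]; ring
        rw [this, Complex.exp_pi_div_two_mul_I]
      rw [e2]
      push_cast
      ring
    have e3 : hh 1 β q t a ρ - hh 0 β q t a ρ = hh 0 β q t a ρ *
        (Complex.exp (Complex.I * ((-(ρ ^ q) : ℝ) : ℂ)) - 1) := by
      rw [e1]; ring
    rw [e3, norm_mul, hn 0 ρ hρ]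
    have h4 : ‖Complex.exp (Complex.I * ((-(ρ ^ q) : ℝ) : ℂ)) - 1‖ ≤ ρ ^ q := by
      refine Real.norm_exp_I_mul_ofReal_sub_one_le.trans (le_of_eq ?_)
      rw [Real.norm_eq_abs, abs_neg, abs_of_nonneg (Real.rpow_nonneg hρ0.le _)]
    have h5 : ρ ^ (2 * q - 1 + (k : ℝ) - 1) = ρ ^ (β - 1) * ρ ^ q := by
      rw [← Real.rpow_add hρ0]
      congr 1
      rw [hβdef]; ring
    rw [h5]
    have h6 : 0 ≤ ρ ^ (β - 1) * Real.exp (-(t * Real.sin a * ρ)) := by positivity
    calc ρ ^ (β - 1) * Real.exp (-(t * Real.sin a * ρ)) *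
          ‖Complex.exp (Complex.I * ((-(ρ ^ q) : ℝ) : ℂ)) - 1‖
        ≤ ρ ^ (β - 1) * Real.exp (-(t * Real.sin a * ρ)) * ρ ^ q :=
          mul_le_mul_of_nonneg_left h4 h6
      _ = ρ ^ (β - 1) * ρ ^ q * Real.exp (-(t * Real.sin a * ρ)) := by ring

end Pool.Agent.Helper87.PT
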