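import Pool.Agent.Helper53.PT.GoalsD
import Pool.Agent.Helper79.PT.KNEG
import Pool.Agent.Helper61.PT.RL
import Pool.Agent.Helper5.PT.KR

/-!
# MP_705522_gt, project (T) of helper53, packet KN: negative node of the kernel test
-/

set_option autoImplicit false

namespace Pool.Agent.Helper87.PT

open MeasureTheory Set Pool.Agent.Helper53.PT

namespace KN

theorem frc_eq {α : Type} (n : ℕ) (f : ℕ → α) : N.frc n f = f n := by cases n <;> rfl

theorem cond_ble {α : Type} (a b : ℕ) (x y : α) :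
    cond (Nat.ble a b) x y = if a ≤ b then x else y := by
  by_cases h : a ≤ b
  · rw [if_pos h, Nat.ble_eq_true_of_le h]; rfl
  · rw [if_neg h]
    have : Nat.ble a b = false := by
      rw [← Bool.not_eq_true, Nat.ble_eq]
      exact h
    rw [this]; rfl

theorem aR_nonneg (x : ℕ) : 0 ≤ aR x := by unfold aR; positivity

theorem vR_nonneg (x : ℕ) : 0 ≤ vR x := by unfold vR; positivity

theorem aR_mono {x y : ℕ} (h : x ≤ y) : aR x ≤ aR y := by
  unfold aR
  exact div_le_div_of_nonneg_right (by exact_mod_cast h) (by positivity)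

theorem le_of_aR {x y : ℕ} (h : aR x ≤ aR y) : x ≤ y := by
  unfold aR at h
  have h1 := (div_le_div_iff_of_pos_right (by positivity : (0 : ℝ) < 2 ^ 26)).1 h
  exact_mod_cast h1

theorem aR_zero : aR 0 = 0 := by unfold aR; simp

theorem aR_mx (x y : ℕ) (w : ℝ) (h1 : aR x ≤ w) (h2 : aR y ≤ w) : aR (N.mx x y) ≤ w := by
  unfold N.mx
  rw [cond_ble]
  split_ifs <;> assumption

theorem mx_lt {x y w : ℕ} (h1 : x < w) (h2 : y < w) : N.mx x y < w := by
  unfold N.mx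
  rw [cond_ble]
  split_ifs <;> assumption

theorem mulL_eq (a X : ℕ) : N.mulL a X = a * X / 64 := by
  show (a * X) >>> 6 = _
  rw [Nat.shiftRight_eq_div_pow]

theorem mulU_eq (a X : ℕ) : N.mulU a X = (a * X + 63) / 64 := by
  show (a * X + 63) >>> 6 = _
  rw [Nat.shiftRight_eq_div_pow]

theorem mulL_le (a X : ℕ) : aR (N.mulL a X) ≤ aR a * ((X : ℝ) / 64) := by
  rw [mulL_eq]
  unfold aR
  have h : ((a * X / 64 : ℕ) : ℝ) ≤ ((a * X : ℕ) : ℝ) / 64 := by
    exact_mod_cast Nat.cast_div_le (α := ℝ) (m := a * X) (n := 64)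
  push_cast at h
  rw [div_mul_eq_mul_div, ← mul_div_assoc]
  exact div_le_div_of_nonneg_right h (by positivity)

theorem le_mulU (a X : ℕ) : aR a * ((X : ℝ) / 64) ≤ aR (N.mulU a X) := by
  rw [mulU_eq]
  unfold aR
  have h0 : a * X ≤ 64 * ((a * X + 63) / 64) := by omega
  have h : ((a * X : ℕ) : ℝ) ≤ ((64 * ((a * X + 63) / 64) : ℕ) : ℝ) := by exact_mod_cast h0
  rw [Nat.cast_mul 64] at h
  push_cast at h
  rw [div_mul_eq_mul_div, ← mul_div_assoc]
  refine div_le_div_of_nonneg_right ?_ (by positivity)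
  rw [div_le_iff₀ (by norm_num)]
  linarith

theorem mul40 (u v : ℕ) : vR u * vR v ≤ vR (Nat.succ (Nat.shiftRight (Nat.mul u v) 40)) := by
  have e : Nat.shiftRight (Nat.mul u v) 40 = u * v / 2 ^ 40 := by
    show (u * v) >>> 40 = _
    rw [Nat.shiftRight_eq_div_pow]
  rw [e]
  have h0 := Nat.lt_mul_div_succ (u * v) (by norm_num : 0 < 2 ^ 40)
  have h : ((u * v : ℕ) : ℝ) ≤ ((2 ^ 40 * (u * v / 2 ^ 40 + 1) : ℕ) : ℝ) := by
    exact_mod_cast h0.le
  rw [Nat.cast_mul (2 ^ 40)] at h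
  unfold vR
  rw [div_mul_div_comm, div_le_div_iff₀ (by positivity) (by positivity)]
  push_cast at h ⊢
  nlinarith [h]

theorem mul41 (u v : ℕ) :
    vR u * vR v / 2 ≤ vR (Nat.succ (Nat.shiftRight (Nat.mul u v) 41)) := by
  have e : Nat.shiftRight (Nat.mul u v) 41 = u * v / 2 ^ 41 := by
    show (u * v) >>> 41 = _
    rw [Nat.shiftRight_eq_div_pow]
  rw [e]
  have h0 := Nat.lt_mul_div_succ (u * v) (by norm_num : 0 < 2 ^ 41)
  have h : ((u * v : ℕ) : ℝ) ≤ ((2 ^ 41 * (u * v / 2 ^ 41 + 1) : ℕ) : ℝ) := by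
    exact_mod_cast h0.le
  rw [Nat.cast_mul (2 ^ 41)] at h
  unfold vR
  rw [div_mul_div_comm, div_div, div_le_div_iff₀ (by positivity) (by positivity)]
  push_cast at h ⊢
  nlinarith [h]

theorem vR_add (u v : ℕ) : vR (Nat.add u v) = vR u + vR v := by
  unfold vR
  rw [← add_div]
  congr 1
  exact Nat.cast_add u v

theorem last (m0 m1 E R : ℕ) (h : m0 ≤ m1) :
    (((m1 : ℝ) / 8) ^ 3 - ((m0 : ℝ) / 8) ^ 3) / 3 * vR E * vR R ≤
      vR (Nat.succ (Nat.div (Nat.shiftRight (Nat.mul (Nat.mul (Nat.sub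
        (Nat.mul (Nat.mul m1 m1) m1) (Nat.mul (Nat.mul m0 m0) m0)) E) R) 40) 1536)) := by
  set W := Nat.sub (Nat.mul (Nat.mul m1 m1) m1) (Nat.mul (Nat.mul m0 m0) m0) with hW
  have hW1 : (W : ℝ) = (m1 : ℝ) ^ 3 - (m0 : ℝ) ^ 3 := by
    have : W = m1 * m1 * m1 - m0 * m0 * m0 := rfl
    rw [this, Nat.cast_sub (Nat.mul_le_mul (Nat.mul_le_mul h h) h)]
    push_cast
    ring
  have e : Nat.div (Nat.shiftRight (Nat.mul (Nat.mul W E) R) 40) 1536 =
      W * E * R / (2 ^ 40 * 1536) := by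
    show ((W * E * R) >>> 40) / 1536 = _
    rw [Nat.shiftRight_eq_div_pow, Nat.div_div_eq_div_mul]
  rw [e]
  have h0 := Nat.lt_mul_div_succ (W * E * R) (by norm_num : 0 < 2 ^ 40 * 1536)
  have h2 : ((W * E * R : ℕ) : ℝ) ≤
      ((2 ^ 40 * 1536 * (W * E * R / (2 ^ 40 * 1536) + 1) : ℕ) : ℝ) := by
    exact_mod_cast h0.le
  rw [Nat.cast_mul (2 ^ 40 * 1536)] at h2
  have e2 : (((m1 : ℝ) / 8) ^ 3 - ((m0 : ℝ) / 8) ^ 3) / 3 = (W : ℝ) / 1536 := by
    rw [hW1]; ring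
  rw [e2]
  unfold vR
  rw [div_mul_div_comm, div_mul_div_comm, div_le_div_iff₀ (by positivity) (by positivity)]
  push_cast at h2 ⊢
  nlinarith [h2]

theorem restB_mono {θ : ℝ} {N : ℕ} {cap m0 m1 Q ul X0 X1 x1 Q' x1' : ℝ} {al : Prop} {B : ℝ}
    (h : RestB θ N cap m0 m1 Q ul X0 X1 x1 al B) (hQ : Q' ≤ Q) (hx : x1' ≤ x1) :
    RestB θ N cap m0 m1 Q' ul X0 X1 x1' al B := by
  intro n S s X h1 h2 h3 h4 h5 h6 h7 h8
  exact h n S s X h1 (fun i hi => ⟨(h2 i hi).1, (h2 i hi).2.1, (h2 i hi).2.2.trans hx⟩) h3 h4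
    (h5.trans hQ) h6 h7 h8

end KN

open KN

theorem gKN (hR2 : GREST2) (hRJ : GRSJ) (hE : GEXP) (hG : GGRID) : GKN := by
  intro hRST D θ z hT n c t i j a1 a2 b1 b2 t0 m0 m1 hc hS hji hmm ha1 h1 h2 h3 h4 ha12 ha2 hsum
    hm0 hm01 hzx
  obtain ⟨-, -, -, gmono, -, -, gidx, -⟩ := hG
  have hne : j ≠ i := fun h => by rw [h] at hji; exact lt_irrefl _ hji
  set X0 := m0 * m0 with hX0
  set X1 := m1 * m1 with hX1
  set x2 := N.mulU a2 X1 with hx2
  set x := N.mx (N.mulL a1 X0) (N.zL D) with hx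
  set y := N.mulL b1 X0 with hy
  set y2 := N.mulU b2 X1 with hy2
  set R0 := N.oneA - (a2 + b2) with hR0
  set R1 := N.oneA - (a1 + b1) with hR1
  set Q := (N.oneA - a1) * t0 - b1 * b1 with hQ
  -- squares
  have q0 : ((m0 : ℝ) / 8) ^ 2 = (X0 : ℝ) / 64 := by rw [hX0]; push_cast; ring
  have q1 : ((m1 : ℝ) / 8) ^ 2 = (X1 : ℝ) / 64 := by rw [hX1]; push_cast; ring
  have hX01 : X0 < X1 := Nat.mul_lt_mul_of_lt_of_le hm01 hm01.le (by omega)
  have hX0p : 0 < X0 := Nat.mul_pos hm0 hm0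
  -- the arguments
  have zl : aR (N.zL D) < z := hT.zl
  have hxx : ∀ w, z ≤ w → aR a1 * ((m0 : ℝ) / 8) ^ 2 ≤ w → aR x ≤ w := by
    intro w hw1 hw2
    refine aR_mx _ _ _ ?_ (zl.le.trans hw1)
    rw [q0] at hw2
    exact (mulL_le a1 X0).trans hw2
  have hyy : ∀ w, aR b1 * ((m0 : ℝ) / 8) ^ 2 ≤ w → aR y ≤ w := by
    intro w hw
    rw [q0] at hw
    exact (mulL_le b1 X0).trans hw
  have hx2' : aR a2 * ((m1 : ℝ) / 8) ^ 2 ≤ aR x2 := by
    rw [q1]
    exact le_mulU a2 X1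
  have hy2' : aR b2 * ((m1 : ℝ) / 8) ^ 2 ≤ aR y2 := by
    rw [q1]
    exact le_mulU b2 X1
  have hxlt : x < x2 := by
    refine mx_lt ?_ hzx
    rw [hx2, mulL_eq, mulU_eq]
    have : a1 * X0 < a2 * X1 := Nat.mul_lt_mul_of_le_of_lt ha12 hX01 (lt_of_lt_of_le ha1 ha12)
    omega
  -- coordinates
  have hij1 : t i + t j ≤ 1 := by
    have := Finset.sum_le_sum_of_subset_of_nonneg (f := t) (Finset.subset_univ {i, j})
      fun l _ _ => hS.1 l
    rw [Finset.sum_pair hne.symm, hS.2] at this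
    exact this
  have hab : a1 + b1 ≤ 2 ^ 26 := by
    have : aR (a1 + b1) ≤ aR (2 ^ 26) := by
      have e1 : aR (a1 + b1) = aR a1 + aR b1 := by unfold aR; push_cast; ring
      have e2 : aR (2 ^ 26) = 1 := by unfold aR; norm_num
      rw [e1, e2]; linarith
    exact le_of_aR this
  have oneA_eq : N.oneA = 2 ^ 26 := rfl
  have eR1 : aR R1 = 1 - aR a1 - aR b1 := by
    rw [hR1, oneA_eq]
    unfold aR
    rw [Nat.cast_sub hab]
    push_cast
    ring
  have eR0 : aR R0 ≤ 1 - aR a2 - aR b2 ∨ aR R0 = 0 := by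
    by_cases h : a2 + b2 ≤ 2 ^ 26
    · left
      rw [hR0, oneA_eq]
      unfold aR
      rw [Nat.cast_sub h]
      push_cast
      apply le_of_eq
      ring
    · right
      have : R0 = 0 := by rw [hR0, oneA_eq]; omega
      rw [this, aR_zero]
  have eQ : (1 - aR a1) * aR t0 - aR b1 ^ 2 ≤ (Q : ℝ) / 2 ^ 52 := by
    have h5 : (((N.oneA - a1) * t0 : ℕ) : ℝ) - ((b1 * b1 : ℕ) : ℝ) ≤ (Q : ℝ) := by
      have : (N.oneA - a1) * t0 ≤ Q + b1 * b1 := by rw [hQ]; omega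
      have : (((N.oneA - a1) * t0 : ℕ) : ℝ) ≤ ((Q + b1 * b1 : ℕ) : ℝ) := by exact_mod_cast this
      push_cast at this ⊢
      linarith
    rw [oneA_eq, Nat.cast_mul, Nat.cast_sub (ha12.trans ha2)] at h5
    push_cast at h5
    unfold aR
    rw [le_div_iff₀ (by positivity)]
    refine le_trans (le_of_eq ?_) h5
    ring
  -- parity
  obtain ⟨par, hpar⟩ : ∃ par : ℕ, par = cond (Nat.ble x2 (N.xgN D.I.kD))
      (cond (Nat.ble y2 (N.zL D)) 1 (cond (Nat.ble x2 (N.xgN D.I.kW)) 1 0)) 0 := ⟨_, rfl⟩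
  obtain ⟨E, hEE⟩ : ∃ E : ℕ, E = Nat.add (Nat.succ (Nat.shiftRight (Nat.mul (cond (Nat.beq par 1)
        (N.p1 D x) (N.fld D.U1 (N.idx x))) (N.avg D.I1 D.U1 y x)) 41))
    (Nat.add (Nat.succ (Nat.shiftRight (Nat.mul (N.fst D x x2) (N.avg D.I2 D.U2 y x)) 40))
      (cond (cond (Nat.beq par 1) (cond (Nat.ble y2 (N.zL D)) false
        (cond (Nat.ble x2 (N.mL D)) false true)) false)
        (Nat.succ (Nat.shiftRight (Nat.mul (N.fld D.U1 D.I.kM) (N.fld D.U1 D.I.kM)) 41)) 0)) :=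
    ⟨_, rfl⟩
  obtain ⟨R, hR⟩ : ∃ R : ℕ, R = N.rst D (Nat.beq par 0) (c - 2) a2 R0 R1 Q 0 X0 X1 x2 := ⟨_, rfl⟩
  have hk : N.kNeg D (c - 2) a1 a2 b1 b2 R0 R1 Q m0 m1 x2 = Nat.succ (Nat.div (Nat.shiftRight
      (Nat.mul (Nat.mul (Nat.sub (Nat.mul (Nat.mul m1 m1) m1) (Nat.mul (Nat.mul m0 m0) m0)) E) R)
      40) 1536) := by
    rw [hR, hEE, hpar]
    unfold N.kNeg
    simp only [frc_eq]
    rfl
  -- the bound of the others
  have hkD : x2 ≤ N.xgN D.I.kD → x2 ≤ N.xgN D.I.kN := by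
    intro h
    rcases hT.i2.2.2.2.1.eq_or_lt with h' | h'
    · rw [← h']; exact h
    · exact h.trans (gmono _ _ h' hT.i1.2.2.2.2.2).le
  have hpar1 : Nat.beq par 0 = true ∨ (par = 1 ∧ x2 ≤ N.xgN D.I.kD ∧
      (y2 ≤ N.zL D ∨ x2 ≤ N.xgN D.I.kW)) := by
    rw [cond_ble, cond_ble, cond_ble] at hpar
    split_ifs at hpar with g1 g2 g3
    · right; exact ⟨hpar, g1, Or.inl g2⟩
    · right; exact ⟨hpar, g1, Or.inr g3⟩
    · left; rw [hpar]; rfl
    · left; rw [hpar]; rfl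
  have hrest : RestB θ (c - 2) (aR a2) (aR R0) (1 - aR a1 - aR b1)
      ((1 - aR a1) * aR t0 - aR b1 ^ 2) 0 (((m0 : ℝ) / 8) ^ 2) (((m1 : ℝ) / 8) ^ 2)
      (aR a2 * ((m1 : ℝ) / 8) ^ 2) (Nat.beq par 0 = true) (vR R) := by
    have h := hRST hR2 hRJ hE D θ z hT (Nat.beq par 0) (c - 2) a2 R0 R1 Q 0 X0 X1 x2 hX0p (by
      rcases hpar1 with h | h
      · exact Or.inl h
      · exact Or.inr (hkD h.2.1))
    rw [← hR, eR1, aR_zero, ← q0, ← q1] at h
    exact restB_mono h eQ hx2'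
  have hidx : N.idx x ≤ 1152 := by
    by_contra hcon
    have h5 := gidx x
    have h6 : ∀ w, N.idx w ≤ 1152 := by
      intro w
      unfold N.idx N.onCell
      simp only [cond_ble]
      have e17 : Nat.shiftRight w 17 = w / 2 ^ 17 := Nat.shiftRight_eq_div_pow w 17
      have e20 : Nat.shiftRight (Nat.sub w 33554432) 20 = (w - 33554432) / 2 ^ 20 :=
        Nat.shiftRight_eq_div_pow _ 20
      have e22 : Nat.shiftRight (Nat.sub w 536870912) 22 = (w - 536870912) / 2 ^ 22 :=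
        Nat.shiftRight_eq_div_pow _ 22
      have e24 : Nat.shiftRight (Nat.sub w 1610612736) 24 = (w - 1610612736) / 2 ^ 24 :=
        Nat.shiftRight_eq_div_pow _ 24
      rw [e17, e20, e22, e24]
      split_ifs
      · exact le_rfl
      · omega
      · show 256 + (w - 33554432) / 2 ^ 20 ≤ 1152
        omega
      · show 736 + (w - 536870912) / 2 ^ 22 ≤ 1152
        omega
      · show 992 + (w - 1610612736) / 2 ^ 24 ≤ 1152
        omega
    exact hcon (h6 x)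
  -- application of KNEG
  rw [hk]
  have hE1 : vR (cond (Nat.beq par 1) (N.p1 D x) (N.fld D.U1 (N.idx x))) *
      vR (N.avg D.I1 D.U1 y x) / 2 + vR (N.fst D x x2) * vR (N.avg D.I2 D.U2 y x) +
      vR (cond (cond (Nat.beq par 1) (cond (Nat.ble y2 (N.zL D)) false
        (cond (Nat.ble x2 (N.mL D)) false true)) false)
        (Nat.succ (Nat.shiftRight (Nat.mul (N.fld D.U1 D.I.kM) (N.fld D.U1 D.I.kM)) 41)) 0) ≤
      vR E := by
    rw [hEE, vR_add, vR_add]
    have g1 := mul41 (cond (Nat.beq par 1) (N.p1 D x) (N.fld D.U1 (N.idx x)))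
      (N.avg D.I1 D.U1 y x)
    have g2 := mul40 (N.fst D x x2) (N.avg D.I2 D.U2 y x)
    linarith
  have hkey := Pool.Agent.Helper79.PT.gKNEG Pool.Agent.Helper61.PT.gRL Pool.Agent.Helper5.PT.gKR
    θ z (xR D.I.kM) (xR D.I.kW) (xR D.I.kD) (xR D.I.kN) hT.fa n (c - 2) t i j (aR a1) (aR a2)
    (aR b1) (aR b2) (aR t0) ((m0 : ℝ) / 8) ((m1 : ℝ) / 8) (vR (N.avg D.I1 D.U1 y x))
    (vR (N.avg D.I2 D.U2 y x)) (vR (N.fst D x x2))
    (vR (cond (Nat.beq par 1) (N.p1 D x) (N.fld D.U1 (N.idx x)))) (vR (N.fld D.U1 D.I.kM)) (vR E)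
    (aR R0) (vR R) (Nat.beq par 0 = true)
    (by rcases hc with hc | ⟨hc, hn⟩
        · left; omega
        · right; omega)
    hS hji hmm (by unfold aR; positivity) h1 h2 (aR_nonneg _) h3 h4 hsum (aR_nonneg _)
    (by positivity) (by
      have : (m0 : ℝ) < m1 := by exact_mod_cast hm01
      linarith) (aR_nonneg _) eR0 (vR_nonneg _) (vR_nonneg _) (vR_nonneg _) (vR_nonneg _)
    (vR_nonneg _) (vR_nonneg _)
    (fun w v hw1 hw2 _ hv1 hv2 => ⟨hT.av1 y x w v (hyy v hv1) (hxx w hw1 hw2) hv2,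
      hT.av2 y x w v (hyy v hv1) (hxx w hw1 hw2) hv2⟩)
    (fun w hw1 hw2 hw3 => hT.fst x x2 w hw1 (hxx w hw1 hw2) (hw3.trans hx2'))
    (by
      rcases hpar1 with h | ⟨hp, hp1, hp2⟩
      · left
        have hp0 : par = 0 := Nat.eq_of_beq_eq_true h
        refine ⟨h, fun w hw1 hw2 _ => ?_, ?_⟩
        · rw [hp0]
          exact hT.u1 (N.idx x) hidx w ((aR_mono (gidx x)).trans (hxx w hw1 hw2))
        · have := vR_nonneg (cond (cond (Nat.beq par 1) (cond (Nat.ble y2 (N.zL D)) false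
            (cond (Nat.ble x2 (N.mL D)) false true)) false)
            (Nat.succ (Nat.shiftRight (Nat.mul (N.fld D.U1 D.I.kM) (N.fld D.U1 D.I.kM)) 41)) 0)
          linarith
      · right
        refine ⟨hx2'.trans (aR_mono hp1), fun w hw1 hw2 hw3 => ?_, ?_⟩
        · rw [hp]
          exact hT.p1 x w (lt_of_lt_of_le hxlt hp1) (hxx w hw1 hw2)
            ((hw3.trans hx2').trans (aR_mono hp1))
        · by_cases g1 : y2 ≤ N.zL D
          · left
            refine ⟨(hy2'.trans (aR_mono g1)).trans zl.le, ?_⟩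
            have := vR_nonneg (cond (cond (Nat.beq par 1) (cond (Nat.ble y2 (N.zL D)) false
              (cond (Nat.ble x2 (N.mL D)) false true)) false)
              (Nat.succ (Nat.shiftRight (Nat.mul (N.fld D.U1 D.I.kM) (N.fld D.U1 D.I.kM)) 41)) 0)
            linarith
          · have g2 : x2 ≤ N.xgN D.I.kW := hp2.resolve_left g1
            right
            by_cases g3 : x2 ≤ N.mL D
            · left
              refine ⟨hx2'.trans (aR_mono g2), hx2'.trans (aR_mono g3), ?_⟩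
              have := vR_nonneg (cond (cond (Nat.beq par 1) (cond (Nat.ble y2 (N.zL D)) false
                (cond (Nat.ble x2 (N.mL D)) false true)) false)
                (Nat.succ (Nat.shiftRight (Nat.mul (N.fld D.U1 D.I.kM) (N.fld D.U1 D.I.kM)) 41)) 0)
              linarith
            · right
              refine ⟨hx2'.trans (aR_mono g2), fun w hw => hT.u1 D.I.kM (by
                have := hT.i1.2.2.2.2
                omega) w hw, ?_⟩
              have e : cond (cond (Nat.beq par 1) (cond (Nat.ble y2 (N.zL D)) false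
                (cond (Nat.ble x2 (N.mL D)) false true)) false)
                (Nat.succ (Nat.shiftRight (Nat.mul (N.fld D.U1 D.I.kM) (N.fld D.U1 D.I.kM)) 41)) 0 =
                (Nat.succ (Nat.shiftRight (Nat.mul (N.fld D.U1 D.I.kM) (N.fld D.U1 D.I.kM)) 41)) := by
                rw [cond_ble y2, if_neg g1, cond_ble x2, if_neg g3, hp]
                rfl
              rw [e] at hE1
              have g4 := mul41 (N.fld D.U1 D.I.kM) (N.fld D.U1 D.I.kM)
              rw [pow_two]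
              linarith)
    hrest
  refine ⟨hkey.1, le_trans ?_ hkey.2⟩
  have hl := last m0 m1 E R hm01.le
  have htt : 0 ≤ t i - t j := by linarith
  have := mul_le_mul_of_nonneg_left hl htt
  linarith

end Pool.Agent.Helper87.PT
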